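import Mathlib

/-! Random elements generate a finite group: additive drift. -/

set_option autoImplicit false

namespace Pool.Agent.Q201.RG

open Finset
open scoped Classical

variable {α G : Type} [Group G]

/-- the number of the `m`-tuples in `Q` which do not generate the group together with `H` -/
noncomputable def F (Q : Finset α) (c : α → G) : ℕ → Subgroup G → ℕ
  | 0, H => if H = ⊤ then 0 else 1
  | m + 1, H => ∑ x ∈ Q, F Q c m (H ⊔ Subgroup.zpowers (c x))

variable (Q : Finset α) (c : α → G)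

lemma F_zero (H : Subgroup G) : F Q c 0 H = if H = ⊤ then 0 else 1 := rfl

lemma F_succ (m : ℕ) (H : Subgroup G) :
    F Q c (m + 1) H = ∑ x ∈ Q, F Q c m (H ⊔ Subgroup.zpowers (c x)) := rfl

lemma F_top (m : ℕ) : F Q c m ⊤ = 0 := by
  induction m with
  | zero => simp [F_zero]
  | succ m ih => simp [F_succ, ih]

lemma F_anti (m : ℕ) : ∀ {H H' : Subgroup G}, H ≤ H' → F Q c m H' ≤ F Q c m H := by
  induction m with
  | zero =>
    intro H H' h
    simp only [F_zero]
    by_cases h1 : H = ⊤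
    · have : H' = ⊤ := by rw [h1] at h; exact top_le_iff.1 h
      simp [h1, this]
    · rw [if_neg h1]; split_ifs <;> omega
  | succ m ih =>
    intro H H' h
    simp only [F_succ]
    exact sum_le_sum fun x _ => ih (sup_le_sup_right h _)

lemma F_succ_le (m : ℕ) (H : Subgroup G) : F Q c (m + 1) H ≤ Q.card * F Q c m H := by
  rw [F_succ]
  calc ∑ x ∈ Q, F Q c m (H ⊔ Subgroup.zpowers (c x)) ≤ ∑ _x ∈ Q, F Q c m H :=
        sum_le_sum fun x _ => F_anti Q c m le_sup_left
    _ = Q.card * F Q c m H := by rw [sum_const, smul_eq_mul]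

lemma F_add_le (m n : ℕ) : ∀ H : Subgroup G, F Q c (m + n) H ≤ F Q c m H * F Q c n ⊥ := by
  induction m with
  | zero =>
    intro H
    rw [zero_add, F_zero]
    by_cases h : H = ⊤
    · rw [h, F_top]; exact Nat.zero_le _
    · rw [if_neg h, one_mul]; exact F_anti Q c n bot_le
  | succ m ih =>
    intro H
    rw [show m + 1 + n = (m + n) + 1 by ring, F_succ, F_succ, sum_mul]
    exact sum_le_sum fun x _ => ih _

lemma F_mul_le (M : ℕ) : ∀ k : ℕ, F Q c (k * M) ⊥ ≤ (F Q c M ⊥) ^ k := by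
  intro k
  induction k with
  | zero =>
    rw [zero_mul, pow_zero, F_zero]; split_ifs <;> omega
  | succ k ih =>
    rw [show (k + 1) * M = k * M + M by ring, pow_succ]
    exact (F_add_le Q c _ _ _).trans (Nat.mul_le_mul_right _ ih)

lemma F_add_le' (m n : ℕ) (H : Subgroup G) : F Q c (m + n) H ≤ Q.card ^ n * F Q c m H := by
  induction n with
  | zero => simp
  | succ n ih =>
    rw [← add_assoc, pow_succ]
    calc F Q c (m + n + 1) H ≤ Q.card * F Q c (m + n) H := F_succ_le Q c _ _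
      _ ≤ Q.card * (Q.card ^ n * F Q c m H) := Nat.mul_le_mul_left _ ih
      _ = Q.card ^ n * Q.card * F Q c m H := by ring

/-- the proportion -/
noncomputable def P (m : ℕ) (H : Subgroup G) : ℝ := (F Q c m H : ℝ) / (Q.card : ℝ) ^ m

lemma P_nonneg (m : ℕ) (H : Subgroup G) : 0 ≤ P Q c m H := by unfold P; positivity

lemma P_zero_le (H : Subgroup G) : P Q c 0 H ≤ 1 := by
  unfold P
  rw [F_zero, pow_zero, div_one]
  split_ifs <;> norm_num

lemma P_top (m : ℕ) : P Q c m ⊤ = 0 := by unfold P; rw [F_top]; simp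

lemma P_succ (hQ : 0 < Q.card) (m : ℕ) (H : Subgroup G) :
    P Q c (m + 1) H = (∑ x ∈ Q, P Q c m (H ⊔ Subgroup.zpowers (c x))) / Q.card := by
  unfold P
  rw [F_succ, ← sum_div, pow_succ, div_div]
  push_cast
  rfl

lemma P_anti_m (hQ : 0 < Q.card) (H : Subgroup G) : Antitone fun m => P Q c m H := by
  have hq : (0 : ℝ) < Q.card := by exact_mod_cast hQ
  refine antitone_nat_of_succ_le fun m => ?_
  unfold P
  rw [div_le_div_iff₀ (by positivity) (by positivity), pow_succ]
  have h : (F Q c (m + 1) H : ℝ) ≤ Q.card * F Q c m H := by exact_mod_cast F_succ_le Q c m H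
  have h0 : (0 : ℝ) < (Q.card : ℝ) ^ m := by positivity
  nlinarith

variable [Finite G]

lemma index_lt {H : Subgroup G} {g : G} (hg : g ∉ H) :
    (H ⊔ Subgroup.zpowers g).index ≤ H.index / 2 := by
  have h1 : H < H ⊔ Subgroup.zpowers g := by
    refine lt_of_le_of_ne le_sup_left fun h => hg ?_
    rw [h]
    exact (le_sup_right : Subgroup.zpowers g ≤ _) (Subgroup.mem_zpowers g)
  have h2 : H.relIndex (H ⊔ Subgroup.zpowers g) * (H ⊔ Subgroup.zpowers g).index = H.index :=
    Subgroup.relIndex_mul_index h1.le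
  have h3 : H.relIndex (H ⊔ Subgroup.zpowers g) ≠ 0 := Subgroup.index_ne_zero_of_finite
  have h4 : H.relIndex (H ⊔ Subgroup.zpowers g) ≠ 1 := by
    intro h
    rw [Subgroup.relIndex_eq_one] at h
    exact absurd h (not_le_of_gt h1)
  have h5 : 2 ≤ H.relIndex (H ⊔ Subgroup.zpowers g) := by omega
  rw [Nat.le_div_iff_mul_le (by norm_num), ← h2, mul_comm]
  exact Nat.mul_le_mul_right _ h5

/-- the number of halvings -/
noncomputable def J (H : Subgroup G) : ℕ := Nat.log 2 H.index

lemma J_top : J (⊤ : Subgroup G) = 0 := by unfold J; simp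

lemma J_pos {H : Subgroup G} (h : H ≠ ⊤) : 1 ≤ J H := by
  unfold J
  have h1 : H.index ≠ 1 := fun h2 => h (Subgroup.index_eq_one.1 h2)
  have h2 : H.index ≠ 0 := Subgroup.index_ne_zero_of_finite
  exact Nat.log_pos (by norm_num) (by omega)

lemma J_le {H : Subgroup G} {g : G} (hg : g ∉ H) : J (H ⊔ Subgroup.zpowers g) ≤ J H - 1 := by
  unfold J
  rw [← Nat.log_div_base]
  exact Nat.log_mono_right (index_lt hg)

/-- **Additive drift.** -/
theorem drift (hQ : 0 < Q.card) {p : ℕ → ℝ} (hp : ∀ j, 1 ≤ j → 0 < p j)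
    (hout : ∀ H : Subgroup G, H ≠ ⊤ →
      p (J H) * Q.card ≤ ((Q.filter fun x => c x ∉ H).card : ℝ)) (m : ℕ) :
    ∀ H : Subgroup G, ∑ k ∈ range m, P Q c k H ≤ ∑ i ∈ Icc 1 (J H), 1 / p i := by
  have hq : (0 : ℝ) < Q.card := by exact_mod_cast hQ
  set Ψ : ℕ → ℝ := fun j => ∑ i ∈ Icc 1 j, 1 / p i with hΨ
  have hmono : Monotone Ψ := by
    intro a b hab
    refine sum_le_sum_of_subset_of_nonneg (Icc_subset_Icc_right hab) fun i hi _ => ?_
    have := hp i (mem_Icc.1 hi).1
    positivity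
  have hΨ0 : ∀ j, 0 ≤ Ψ j := fun j => sum_nonneg fun i hi => by
    have := hp i (mem_Icc.1 hi).1
    positivity
  have hΨs : ∀ j, 1 ≤ j → Ψ j = Ψ (j - 1) + 1 / p j := by
    intro j hj
    obtain ⟨i, rfl⟩ : ∃ i, j = i + 1 := ⟨j - 1, by omega⟩
    simp only [hΨ, Nat.add_sub_cancel]
    rw [sum_Icc_succ_top (by omega)]
  induction m with
  | zero => intro H; rw [range_zero, sum_empty]; exact hΨ0 _
  | succ m ih =>
    intro H
    show _ ≤ Ψ (J H)
    by_cases hH : H = ⊤
    · rw [hH, J_top]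
      rw [sum_eq_zero fun k _ => P_top Q c k]
      exact hΨ0 _
    rw [sum_range_succ']
    have h1 : ∑ k ∈ range m, P Q c (k + 1) H =
        (∑ x ∈ Q, ∑ k ∈ range m, P Q c k (H ⊔ Subgroup.zpowers (c x))) / Q.card := by
      rw [sum_comm, sum_div]
      exact sum_congr rfl fun k _ => P_succ Q c hQ k H
    have h2 : ∑ x ∈ Q, ∑ k ∈ range m, P Q c k (H ⊔ Subgroup.zpowers (c x)) ≤
        ∑ x ∈ Q, (Ψ (J H) - if c x ∉ H then 1 / p (J H) else 0) := by
      refine sum_le_sum fun x _ => ?_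
      refine (ih _).trans ?_
      by_cases hx : c x ∉ H
      · rw [if_pos hx]
        have h3 := hmono (J_le hx)
        have h4 := hΨs (J H) (J_pos hH)
        show Ψ _ ≤ _
        linarith
      · rw [if_neg hx, sub_zero]
        rw [not_not] at hx
        have h3 : H ⊔ Subgroup.zpowers (c x) = H := by
          rw [sup_eq_left, Subgroup.zpowers_le]
          exact hx
        rw [h3]
    rw [sum_sub_distrib, sum_const, nsmul_eq_mul, ← sum_filter, sum_const, nsmul_eq_mul] at h2
    have hpJ := hp (J H) (J_pos hH)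
    have h3 : (Q.card : ℝ) ≤ ((Q.filter fun x => c x ∉ H).card : ℝ) * (1 / p (J H)) := by
      rw [mul_one_div, le_div_iff₀ hpJ]
      have := hout H hH
      linarith
    have h4 : ∑ k ∈ range m, P Q c (k + 1) H ≤ Ψ (J H) - 1 := by
      rw [h1, div_le_iff₀ hq]
      nlinarith
    have h5 := P_zero_le Q c H
    linarith

theorem markov (hQ : 0 < Q.card) {p : ℕ → ℝ} (hp : ∀ j, 1 ≤ j → 0 < p j)
    (hout : ∀ H : Subgroup G, H ≠ ⊤ →
      p (J H) * Q.card ≤ ((Q.filter fun x => c x ∉ H).card : ℝ)) (m : ℕ) (H : Subgroup G) :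
    m * P Q c m H ≤ ∑ i ∈ Icc 1 (J H), 1 / p i := by
  refine le_trans ?_ (drift Q c hQ hp hout m H)
  calc (m : ℝ) * P Q c m H = ∑ _k ∈ range m, P Q c m H := by
        rw [sum_const, card_range, nsmul_eq_mul]
    _ ≤ ∑ k ∈ range m, P Q c k H :=
        sum_le_sum fun k hk => P_anti_m Q c hQ H (mem_range.1 hk).le

/-- **Exponential tail.** -/
theorem tail (hQ : 0 < Q.card) {p : ℕ → ℝ} (hp : ∀ j, 1 ≤ j → 0 < p j)
    (hout : ∀ H : Subgroup G, H ≠ ⊤ →
      p (J H) * Q.card ≤ ((Q.filter fun x => c x ∉ H).card : ℝ)) {M : ℕ} (hM : 0 < M)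
    (hMp : 2 * ∑ i ∈ Icc 1 (J (⊥ : Subgroup G)), 1 / p i ≤ M) (m : ℕ) :
    P Q c m ⊥ ≤ 2 * (1 / 2 : ℝ) ^ ((m : ℝ) / M) := by
  have hq : (0 : ℝ) < Q.card := by exact_mod_cast hQ
  have hMr : (0 : ℝ) < M := by exact_mod_cast hM
  have h1 : P Q c M ⊥ ≤ 1 / 2 := by
    have := markov Q c hQ hp hout M ⊥
    by_contra hlt
    push Not at hlt
    nlinarith
  set k := m / M with hk
  have h2 : P Q c m ⊥ ≤ P Q c (k * M) ⊥ := P_anti_m Q c hQ ⊥ (Nat.div_mul_le_self m M)
  have h3 : P Q c (k * M) ⊥ ≤ (P Q c M ⊥) ^ k := by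
    unfold P
    rw [div_pow, ← pow_mul, mul_comm M k]
    apply div_le_div_of_nonneg_right _ (by positivity)
    exact_mod_cast F_mul_le Q c M k
  have h4 : (P Q c M ⊥) ^ k ≤ (1 / 2 : ℝ) ^ k := pow_le_pow_left₀ (P_nonneg _ _ _ _) h1 k
  refine (h2.trans (h3.trans h4)).trans ?_
  have h5 : (m : ℝ) / M ≤ (k : ℝ) + 1 := by
    rw [div_le_iff₀ hMr]
    have : m < (k + 1) * M := by
      rw [hk, mul_comm]
      exact Nat.lt_mul_div_succ m hM
    exact_mod_cast this.le
  have h6 : (1 / 2 : ℝ) ^ ((k : ℝ) + 1) ≤ (1 / 2 : ℝ) ^ ((m : ℝ) / M) :=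
    Real.rpow_le_rpow_of_exponent_ge (by norm_num) (by norm_num) h5
  rw [Real.rpow_add (by norm_num), Real.rpow_natCast, Real.rpow_one] at h6
  linarith

omit [Finite G] in
/-- the count of tuples -/
theorem count (m : ℕ) : ∀ H : Subgroup G,
    ((Fintype.piFinset fun _ : Fin m => Q).filter fun f =>
      H ⊔ Subgroup.closure (Set.range fun i => c (f i)) ≠ ⊤).card = F Q c m H := by
  induction m with
  | zero =>
    intro H
    rw [F_zero]
    have h1 : ∀ f : Fin 0 → α, Set.range (fun i => c (f i)) = ∅ := fun f => Set.range_eq_empty _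
    simp only [h1, Subgroup.closure_empty, sup_bot_eq]
    by_cases h : H = ⊤
    · simp [h]
    · simp [h]
  | succ m ih =>
    intro H
    rw [F_succ]
    simp_rw [← ih]
    rw [← card_sigma]
    refine card_bij' (fun f _ => ⟨f 0, Fin.tail f⟩) (fun s _ => Fin.cons s.1 s.2) ?_ ?_ ?_ ?_
    · intro f hf
      rw [mem_filter, Fintype.mem_piFinset] at hf
      rw [mem_sigma, mem_filter, Fintype.mem_piFinset]
      refine ⟨hf.1 0, fun i => hf.1 i.succ, ?_⟩
      convert hf.2 using 1
      rw [sup_assoc]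
      congr 1
      rw [Subgroup.zpowers_eq_closure, ← Subgroup.closure_union]
      congr 1
      ext g
      simp only [Set.mem_union, Set.mem_singleton_iff, Set.mem_range, Fin.tail, Fin.exists_fin_succ]
      exact or_congr_left eq_comm
    · rintro ⟨x, f⟩ hf
      rw [mem_sigma, mem_filter, Fintype.mem_piFinset] at hf
      rw [mem_filter, Fintype.mem_piFinset]
      refine ⟨fun i => ?_, ?_⟩
      · refine Fin.cases ?_ (fun i => ?_) i
        · simpa using hf.1
        · simpa using hf.2.1 i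
      · convert hf.2.2 using 1
        rw [sup_assoc]
        congr 1
        rw [Subgroup.zpowers_eq_closure, ← Subgroup.closure_union]
        congr 1
        ext g
        simp only [Set.mem_union, Set.mem_singleton_iff, Set.mem_range, Fin.exists_fin_succ,
          Fin.cons_zero, Fin.cons_succ]
        exact or_congr_left eq_comm
    · intro f _
      exact Fin.cons_self_tail f
    · rintro ⟨x, f⟩ _
      simp

end Pool.Agent.Q201.RG
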