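import Mathlib

/-! The number of the prime ideals of small norm of a quadratic field. -/

set_option autoImplicit false

namespace Pool.Agent.Q201.RG

open Finset NumberField
open scoped Classical

section

variable (K : Type) [Field K] [NumberField K]

theorem absNorm_nat (p : ℕ) (h2 : Module.finrank ℚ K = 2) :
    Ideal.absNorm (Ideal.span {(p : 𝓞 K)}) = p ^ 2 := by
  rw [Ideal.absNorm_span_natCast, NumberField.RingOfIntegers.rank, h2]

theorem above_le (h2 : Module.finrank ℚ K = 2) (p : ℕ) (hp : p.Prime)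
    (S : Finset (Ideal (𝓞 K)))
    (hS : ∀ P ∈ S, P.IsPrime ∧ P ≠ ⊥ ∧ (p : 𝓞 K) ∈ P) : S.card ≤ 2 := by
  have h3 : ∏ P ∈ S, P ∣ Ideal.span {(p : 𝓞 K)} := by
    refine Finset.prod_dvd_of_coprime ?_ fun P hP => ?_
    · intro P hP Q hQ hPQ
      have mP := (hS P hP).1.isMaximal (hS P hP).2.1
      have mQ := (hS Q hQ).1.isMaximal (hS Q hQ).2.1
      show IsCoprime P Q
      rw [Ideal.isCoprime_iff_sup_eq]
      exact mP.coprime_of_ne mQ hPQ
    · rw [Ideal.dvd_span_singleton]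
      exact (hS P hP).2.2
  have h4 := Ideal.absNorm_dvd_absNorm_of_le (Ideal.le_of_dvd h3)
  rw [absNorm_nat K p h2, map_prod] at h4
  have h5 : p ^ S.card ∣ ∏ P ∈ S, Ideal.absNorm P := by
    rw [← prod_const]
    refine Finset.prod_dvd_prod_of_dvd _ _ fun P hP => ?_
    have h6 : Ideal.absNorm P ∣ p ^ 2 := (Finset.dvd_prod_of_mem _ hP).trans h4
    obtain ⟨k, hk, hk'⟩ := (Nat.dvd_prime_pow hp).1 h6
    have h7 : k ≠ 0 := by
      rintro rfl
      rw [pow_zero, Ideal.absNorm_eq_one_iff] at hk'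
      exact (hS P hP).1.ne_top hk'
    rw [hk']
    exact dvd_pow_self p h7
  exact (Nat.pow_dvd_pow_iff_le_right hp.one_lt).1 (h5.trans h4)

theorem exists_prime_mem {P : Ideal (𝓞 K)} (hP : P.IsPrime) (h0 : P ≠ ⊥) :
    ∃ p : ℕ, p.Prime ∧ (p : 𝓞 K) ∈ P := by
  have hex : ∃ n : ℕ, 0 < n ∧ (n : 𝓞 K) ∈ P :=
    ⟨Ideal.absNorm P, Nat.pos_of_ne_zero fun h => h0 (Ideal.absNorm_eq_zero_iff.1 h),
      Ideal.absNorm_mem P⟩
  set n := Nat.find hex with hn
  obtain ⟨h1, h2⟩ := Nat.find_spec hex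
  rw [← hn] at h1 h2
  have h3 : n ≠ 1 := by
    intro h
    rw [h, Nat.cast_one] at h2
    exact hP.ne_top ((Ideal.eq_top_iff_one P).2 h2)
  refine ⟨n, ?_, h2⟩
  by_contra hnp
  obtain ⟨a, b, ha, hb, hab⟩ : ∃ a b, a < n ∧ b < n ∧ a * b = n := by
    have h4 := Nat.minFac_dvd n
    obtain ⟨b, hb⟩ := h4
    have h5 : n.minFac ≠ 1 := fun h => h3 (Nat.minFac_eq_one_iff.1 h)
    have h6 : n.minFac < n := by
      refine lt_of_le_of_ne (Nat.minFac_le h1) fun h => hnp ?_
      rw [← h]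
      exact Nat.minFac_prime h3
    refine ⟨n.minFac, b, h6, ?_, hb.symm⟩
    have h7 : 2 ≤ n.minFac := (Nat.minFac_prime h3).two_le
    have hb0 : 0 < b := by
      rcases Nat.eq_zero_or_pos b with rfl | h
      · rw [mul_zero] at hb; omega
      · exact h
    nlinarith
  have h4 : ((a : 𝓞 K)) * (b : 𝓞 K) ∈ P := by
    rw [← Nat.cast_mul, hab]; exact h2
  rcases hP.mem_or_mem h4 with h | h
  · have h5 : 0 < a := by
      rcases Nat.eq_zero_or_pos a with rfl | h'
      · rw [zero_mul] at hab; omega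
      · exact h'
    exact Nat.find_min hex ha ⟨h5, h⟩
  · have h5 : 0 < b := by
      rcases Nat.eq_zero_or_pos b with rfl | h'
      · rw [mul_zero] at hab; omega
      · exact h'
    exact Nat.find_min hex hb ⟨h5, h⟩

theorem le_absNorm (h2 : Module.finrank ℚ K = 2) {P : Ideal (𝓞 K)} (hP : P.IsPrime)
    {p : ℕ} (hp : p.Prime) (hpP : (p : 𝓞 K) ∈ P) : p ≤ Ideal.absNorm P := by
  have h3 : P ∣ Ideal.span {(p : 𝓞 K)} := by rwa [Ideal.dvd_span_singleton]
  have h6 := Ideal.absNorm_dvd_absNorm_of_le (Ideal.le_of_dvd h3)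
  rw [absNorm_nat K p h2] at h6
  obtain ⟨k, hk, hk'⟩ := (Nat.dvd_prime_pow hp).1 h6
  have h7 : k ≠ 0 := by
    rintro rfl
    rw [pow_zero, Ideal.absNorm_eq_one_iff] at hk'
    exact hP.ne_top hk'
  rw [hk']
  exact Nat.le_self_pow h7 p

theorem card_small (h2 : Module.finrank ℚ K = 2) (B : ℝ)
    (Q : Finset (nonZeroDivisors (Ideal (𝓞 K))))
    (hQ : ∀ P ∈ Q, (P : Ideal (𝓞 K)).IsPrime ∧ (Ideal.absNorm (P : Ideal (𝓞 K)) : ℝ) ≤ B) :
    Q.card ≤ 2 * Nat.primeCounting ⌊B⌋₊ := by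
  have h0 : ∀ P : nonZeroDivisors (Ideal (𝓞 K)), (P : Ideal (𝓞 K)) ≠ ⊥ := fun P =>
    nonZeroDivisors.ne_zero P.2
  have h3 : Q ⊆ ((range (⌊B⌋₊ + 1)).filter Nat.Prime).biUnion fun p =>
      Q.filter fun P : nonZeroDivisors (Ideal (𝓞 K)) => (p : 𝓞 K) ∈ (P : Ideal (𝓞 K)) := by
    intro P hP
    obtain ⟨hP1, hP2⟩ := hQ P hP
    obtain ⟨p, hp, hpP⟩ := exists_prime_mem K hP1 (h0 P)
    rw [mem_biUnion]
    refine ⟨p, ?_, mem_filter.2 ⟨hP, hpP⟩⟩
    rw [mem_filter, mem_range]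
    refine ⟨?_, hp⟩
    have h4 := le_absNorm K h2 hP1 hp hpP
    have h5 : Ideal.absNorm (P : Ideal (𝓞 K)) ≤ ⌊B⌋₊ := Nat.le_floor hP2
    omega
  have h4 : ((range (⌊B⌋₊ + 1)).filter Nat.Prime).card = Nat.primeCounting ⌊B⌋₊ := by
    unfold Nat.primeCounting Nat.primeCounting'
    rw [Nat.count_eq_card_filter_range]
  refine (card_le_card h3).trans ?_
  refine (card_biUnion_le_card_mul _ _ 2 ?_).trans (le_of_eq (by rw [h4, mul_comm]))
  intro p hp
  have hp' := (mem_filter.1 hp).2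
  obtain ⟨T, hT⟩ : ∃ T : Finset (nonZeroDivisors (Ideal (𝓞 K))),
      T = Q.filter fun P : nonZeroDivisors (Ideal (𝓞 K)) => (p : 𝓞 K) ∈ (P : Ideal (𝓞 K)) :=
    ⟨_, rfl⟩
  rw [← hT]
  have h5 := above_le K h2 p hp' (T.image Subtype.val) (by
      intro P hP
      rw [mem_image] at hP
      obtain ⟨P', hP', rfl⟩ := hP
      rw [hT, mem_filter] at hP'
      exact ⟨(hQ P' hP'.1).1, h0 P', hP'.2⟩)
  rwa [card_image_of_injective _ Subtype.val_injective] at h5

end

/-- the number of the classes from short products -/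
theorem card_le_of_products {G α : Type} [CommGroup G] [Fintype G] (Q : Finset α) (c : α → G)
    (n : ℕ) (h : ∀ g : G, ∃ L : Multiset α, (∀ x ∈ L, x ∈ Q) ∧ Multiset.card L ≤ n ∧
      (L.map c).prod = g) : Fintype.card G ≤ (Q.card + 1) ^ n := by
  have h1 : (Fintype.piFinset fun _ : Fin n => insertNone Q).card = (Q.card + 1) ^ n := by
    rw [Fintype.card_piFinset]
    simp
  rw [← h1, ← card_univ]
  refine card_le_card_of_surjOn (fun f => ∏ i, (f i).elim 1 c) ?_
  intro g _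
  obtain ⟨L, hL1, hL2, hL3⟩ := h g
  induction L using Quotient.inductionOn with
  | _ l =>
    have hl : l.length ≤ n := hL2
    refine ⟨fun i => l[(i : ℕ)]?, ?_, ?_⟩
    · rw [mem_coe, Fintype.mem_piFinset]
      intro i
      rw [mem_insertNone]
      intro x hx
      exact hL1 x (List.mem_of_getElem? hx)
    · show ∏ i : Fin n, (l[(i : ℕ)]?).elim 1 c = g
      have h2 : ∀ (l : List α) (n : ℕ), l.length ≤ n →
          ∏ i : Fin n, (l[(i : ℕ)]?).elim 1 c = (l.map c).prod := by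
        intro l
        induction l with
        | nil => intro n _; simp
        | cons x l ih =>
          intro n hn
          obtain ⟨k, rfl⟩ : ∃ k, n = k + 1 := ⟨n - 1, by
            simp only [List.length_cons] at hn; omega⟩
          rw [Fin.prod_univ_succ]
          simp only [Fin.val_zero, List.getElem?_cons_zero, Fin.val_succ, List.getElem?_cons_succ,
            List.map_cons, List.prod_cons]
          rw [ih k (by simpa using hn)]
          rfl
      rw [h2 l n hl]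
      simpa using hL3

end Pool.Agent.Q201.RG
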