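import Mathlib

/-! Elementary inequalities for random generation. -/

set_option autoImplicit false

namespace Pool.Agent.Q201.RG

open Finset

/-- the number of primes up to `l ^ a` -/
theorem pi_pow_le {l a : ℝ} (hl : 1 < l) (ha : 2 < a) :
    (Nat.primeCounting ⌊l ^ a⌋₊ : ℝ) ≤ 4 * (l ^ a / (a * Real.log l)) := by
  have hlog : 0 < Real.log l := Real.log_pos hl
  have hB : 1 < l ^ a := Real.one_lt_rpow hl (by linarith)
  have hB0 : 0 < l ^ a := by linarith
  have h1 := Chebyshev.pi_le_log4_mul_div hB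
  have h2 : Real.log √(l ^ a) = a * Real.log l / 2 := by
    rw [Real.log_sqrt hB0.le, Real.log_rpow (by linarith)]
  have hal : 0 < a * Real.log l := by positivity
  have h3 : √(l ^ a) ≤ l ^ a / (a * Real.log l) := by
    rw [le_div_iff₀ hal]
    have h4 : a * Real.log l = 2 * Real.log √(l ^ a) := by rw [h2]; ring
    have h5 : 0 < √(l ^ a) := Real.sqrt_pos.2 hB0
    have h6 : 2 * Real.log √(l ^ a) ≤ √(l ^ a) := by
      have h7 := Real.add_one_le_exp (√(l ^ a) / 2 - 1)
      have h8 : Real.log (√(l ^ a) / 2) ≤ √(l ^ a) / 2 - 1 := by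
        have := Real.log_le_sub_one_of_pos (show 0 < √(l ^ a) / 2 by positivity)
        linarith
      rw [Real.log_div h5.ne' (by norm_num)] at h8
      have := Real.log_two_lt_d9
      linarith
    rw [h4]
    calc √(l ^ a) * (2 * Real.log √(l ^ a)) ≤ √(l ^ a) * √(l ^ a) :=
          mul_le_mul_of_nonneg_left h6 h5.le
      _ = l ^ a := Real.mul_self_sqrt hB0.le
  have h4 : Real.log 4 * l ^ a / Real.log √(l ^ a) ≤ 3 * (l ^ a / (a * Real.log l)) := by
    rw [h2]
    have h5 : Real.log 4 = 2 * Real.log 2 := by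
      rw [show (4 : ℝ) = 2 ^ 2 by norm_num, Real.log_pow]; norm_num
    have h6 : Real.log 4 * l ^ a / (a * Real.log l / 2) =
        (4 * Real.log 2) * (l ^ a / (a * Real.log l)) := by
      rw [h5]; field_simp; ring
    rw [h6]
    apply mul_le_mul_of_nonneg_right _ (by positivity)
    have := Real.log_two_lt_d9
    linarith
  refine h1.trans ?_
  linarith

/-- the success probabilities -/
noncomputable def pr (l : ℝ) (j : ℕ) : ℝ := 1 / 8000 * min 1 (Real.log l * j / (2 * l))

theorem pr_pos {l : ℝ} (hl : 1 < l) (j : ℕ) (hj : 1 ≤ j) : 0 < pr l j := by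
  have hlog : 0 < Real.log l := Real.log_pos hl
  have hj' : (0 : ℝ) < j := by exact_mod_cast hj
  unfold pr
  have : 0 < min 1 (Real.log l * j / (2 * l)) := lt_min one_pos (by positivity)
  positivity

theorem inv_pr_le {l : ℝ} (hl : 1 < l) (j : ℕ) (hj : 1 ≤ j) :
    1 / pr l j ≤ 8000 * (1 + 2 * l / Real.log l * (1 / j)) := by
  have hlog : 0 < Real.log l := Real.log_pos hl
  have hj' : (0 : ℝ) < j := by exact_mod_cast hj
  unfold pr
  rcases le_total 1 (Real.log l * j / (2 * l)) with h | h
  · rw [min_eq_left h]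
    have : 0 ≤ 2 * l / Real.log l * (1 / (j : ℝ)) := by positivity
    rw [show (1 : ℝ) / (1 / 8000 * 1) = 8000 by norm_num]
    linarith
  · rw [min_eq_right h]
    have e : 1 / (1 / 8000 * (Real.log l * j / (2 * l))) = 8000 * (2 * l / Real.log l * (1 / j)) := by
      field_simp
    rw [e]
    linarith

theorem sum_inv_pr_le {l : ℝ} (hl : 1 < l) (J : ℕ) :
    ∑ i ∈ Icc 1 J, 1 / pr l i ≤ 8000 * (J + 2 * l / Real.log l * (1 + Real.log J)) := by
  have hlog : 0 < Real.log l := Real.log_pos hl
  have h1 : ∑ i ∈ Icc 1 J, 1 / pr l i ≤ ∑ i ∈ Icc 1 J, 8000 * (1 + 2 * l / Real.log l * (1 / (i:ℝ))) :=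
    sum_le_sum fun i hi => inv_pr_le hl i (mem_Icc.1 hi).1
  refine h1.trans ?_
  rw [← mul_sum, sum_add_distrib, ← mul_sum]
  have h2 : ∑ i ∈ Icc 1 J, (1 / (i : ℝ)) ≤ 1 + Real.log J := by
    have := harmonic_le_one_add_log J
    rw [harmonic_eq_sum_Icc] at this
    push_cast at this
    simpa [one_div] using this
  have h3 : ∑ _i ∈ Icc 1 J, (1 : ℝ) = J := by simp
  rw [h3]
  have h4 : 0 ≤ 2 * l / Real.log l := by positivity
  nlinarith [mul_le_mul_of_nonneg_left h2 h4]

/-- the bound for the expected time -/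
theorem psi_le {l a : ℝ} (hl : 1.098 ≤ l) (ha : 2 < a) {J h : ℕ} (hJ : 2 ^ J ≤ h)
    (hh : Real.log h ≤ l / Real.log l * Real.log (3 * l ^ a)) :
    2 * ∑ i ∈ Icc 1 J, 1 / pr l i ≤ 999000 * (a * l) := by
  have hl1 : 1 < l := by linarith
  have hlog : 0 < Real.log l := Real.log_pos hl1
  have hll : 0.089 ≤ Real.log l := by
    have h1 := Real.one_sub_inv_le_log_of_pos (show 0 < l by linarith)
    have h2 : l⁻¹ ≤ (1.098)⁻¹ := inv_anti₀ (by norm_num) hl
    have h3 : (1.098 : ℝ)⁻¹ ≤ 0.911 := by norm_num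
    linarith
  have hli : 1 / Real.log l ≤ 11.3 := by
    rw [div_le_iff₀ hlog]
    nlinarith
  rcases Nat.eq_zero_or_pos J with rfl | hJ0
  · rw [show Icc 1 0 = (∅ : Finset ℕ) by simp, sum_empty]
    have : 0 < a * l := by nlinarith
    linarith
  have hJr : (1 : ℝ) ≤ J := by exact_mod_cast hJ0
  have hB0 : 0 < l ^ a := by positivity
  have h3 : Real.log (3 * l ^ a) ≤ 1.0987 + a * Real.log l := by
    rw [Real.log_mul (by norm_num) hB0.ne', Real.log_rpow (by linarith)]
    have : Real.log 3 ≤ 1.0987 := by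
      have := Real.log_three_lt_d9
      linarith
    linarith
  have h4 : Real.log h ≤ 7.3 * (a * l) := by
    refine hh.trans ?_
    have h5 : l / Real.log l * Real.log (3 * l ^ a) ≤
        l / Real.log l * (1.0987 + a * Real.log l) :=
      mul_le_mul_of_nonneg_left h3 (by positivity)
    refine h5.trans ?_
    have h6 : l / Real.log l * (1.0987 + a * Real.log l) = l * (1.0987 * (1 / Real.log l) + a) := by
      field_simp
    rw [h6]
    have h7 : 1.0987 * (1 / Real.log l) + a ≤ 7.3 * a := by nlinarith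
    have := mul_le_mul_of_nonneg_left h7 (show 0 ≤ l by linarith)
    linarith
  have h5 : (J : ℝ) ≤ 10.7 * (a * l) := by
    have h6 : (J : ℝ) * Real.log 2 ≤ Real.log h := by
      rw [← Real.log_pow]
      apply Real.log_le_log (by positivity)
      exact_mod_cast hJ
    have h7 := Real.log_two_gt_d9
    have h8 : 0.6931 * (J : ℝ) ≤ 7.3 * (a * l) := by nlinarith
    have h9 : 0 < a * l := by nlinarith
    linarith
  have h6 : Real.log J ≤ 1.42 + a + Real.log l := by
    have h7 : Real.log J ≤ Real.log (10.7 * (a * l)) := Real.log_le_log (by linarith) h5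
    rw [Real.log_mul (by norm_num) (by nlinarith), Real.log_mul (by linarith) (by linarith)] at h7
    have h8 := Real.log_le_sub_one_of_pos (show 0 < a by linarith)
    have h9 : Real.log 10.7 ≤ 2.42 := by
      have h10 : Real.log (10.7 : ℝ) ≤ Real.log ((2 : ℝ) ^ 3 * 1.34) :=
        Real.log_le_log (by norm_num) (by norm_num)
      rw [Real.log_mul (by norm_num) (by norm_num), Real.log_pow] at h10
      have h11 := Real.log_two_lt_d9
      have h12 : Real.log (1.34 : ℝ) ≤ 0.34 := by
        have := Real.log_le_sub_one_of_pos (show (0 : ℝ) < 1.34 by norm_num)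
        linarith
      push_cast at h10
      linarith
    linarith
  have h7 := sum_inv_pr_le hl1 J
  have h8 : 2 * l / Real.log l * (1 + Real.log J) ≤ 51.2 * (a * l) := by
    have h9 : 2 * l / Real.log l * (1 + Real.log J) ≤
        2 * l / Real.log l * (2.42 + a + Real.log l) :=
      mul_le_mul_of_nonneg_left (by linarith) (by positivity)
    refine h9.trans ?_
    have h10 : 2 * l / Real.log l * (2.42 + a + Real.log l) =
        2 * l * ((2.42 + a) * (1 / Real.log l) + 1) := by
      field_simp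
    rw [h10]
    have h11 : (2.42 + a) * (1 / Real.log l) + 1 ≤ 25.6 * a := by nlinarith
    nlinarith
  nlinarith

end Pool.Agent.Q201.RG
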