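import Pool.Agent.Q201.RG.Drift
import Pool.Agent.Q201.RG.Num
import Pool.Agent.Q201.RG.Field

/-! Random tiny prime ideals generate the class group. -/

set_option autoImplicit false

namespace Pool.Agent.Q201.RG

open Finset NumberField
open scoped Classical

theorem primeCounting_le (n : ℕ) : Nat.primeCounting n ≤ n := by
  unfold Nat.primeCounting Nat.primeCounting'
  rw [Nat.count_eq_card_filter_range]
  have h1 : (range (n + 1)).filter Nat.Prime ⊆ Ioc 0 n := by
    intro p hp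
    rw [mem_filter, mem_range] at hp
    rw [mem_Ioc]
    have := hp.2.pos
    omega
  refine (card_le_card h1).trans ?_
  simp

theorem field_tail (K : Type) [Field K] [NumberField K] (h2 : Module.finrank ℚ K = 2) {a l : ℝ}
    (ha : 2 < a) (hl : 1.098 ≤ l)
    (hrob : ∀ H : Subgroup (ClassGroup (𝓞 K)), H ≠ ⊤ →
      1 / (1000 * a) * min (l ^ a / Real.log l) (l ^ (a - 1) * Real.log H.index) ≤
      ({P : nonZeroDivisors (Ideal (𝓞 K)) | (P : Ideal (𝓞 K)).IsPrime ∧
        (Ideal.absNorm (P : Ideal (𝓞 K)) : ℝ) ≤ l ^ a ∧ ClassGroup.mk0 P ∉ H}.ncard : ℝ))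
    (hprod : ∀ C : ClassGroup (𝓞 K), ∃ L : Multiset (nonZeroDivisors (Ideal (𝓞 K))),
      (∀ P ∈ L, (P : Ideal (𝓞 K)).IsPrime ∧
        (Ideal.absNorm (P : Ideal (𝓞 K)) : ℝ) ≤ l ^ a) ∧
      (L.card : ℝ) ≤ l / Real.log l ∧ (L.map (fun P => ClassGroup.mk0 P)).prod = C)
    (Q : Finset (nonZeroDivisors (Ideal (𝓞 K))))
    (hQ : ∀ P, P ∈ Q ↔ (P : Ideal (𝓞 K)).IsPrime ∧
      (Ideal.absNorm (P : Ideal (𝓞 K)) : ℝ) ≤ l ^ a) (m : ℕ) :
    (((Fintype.piFinset fun _ : Fin m => Q).filter fun f =>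
      Subgroup.closure (Set.range fun i => ClassGroup.mk0 (f i)) ≠ ⊤).card : ℝ) ≤
      2 * (1 / 2 : ℝ) ^ ((m : ℝ) / (1000000 * (a * l))) * (Q.card : ℝ) ^ m := by
  have hl1 : 1 < l := by linarith
  have hlog : 0 < Real.log l := Real.log_pos hl1
  have hal : 2 < a * l := by nlinarith
  have hB : 1 < l ^ a := Real.one_lt_rpow hl1 (by linarith)
  have hcount := count Q (fun P => ClassGroup.mk0 P) m (⊥ : Subgroup (ClassGroup (𝓞 K)))
  simp only [bot_sup_eq] at hcount
  rw [hcount]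
  rcases Nat.eq_zero_or_pos Q.card with hq0 | hq
  · rcases Nat.eq_zero_or_pos m with rfl | hm
    · have h3 : F Q (fun P => ClassGroup.mk0 P) 0 (⊥ : Subgroup (ClassGroup (𝓞 K))) ≤ 1 := by
        rw [F_zero]; split_ifs <;> omega
      have h4 : (F Q (fun P => ClassGroup.mk0 P) 0 (⊥ : Subgroup (ClassGroup (𝓞 K))) : ℝ) ≤ 1 := by
        exact_mod_cast h3
      simp only [Nat.cast_zero, zero_div, Real.rpow_zero, pow_zero]
      linarith
    · have h3 : F Q (fun P => ClassGroup.mk0 P) m (⊥ : Subgroup (ClassGroup (𝓞 K))) = 0 := by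
        obtain ⟨k, rfl⟩ : ∃ k, m = k + 1 := ⟨m - 1, by omega⟩
        rw [F_succ, card_eq_zero.1 hq0, sum_empty]
      rw [h3, Nat.cast_zero]
      positivity
  have hqr : (0 : ℝ) < Q.card := by exact_mod_cast hq
  have hQle : (Q.card : ℝ) ≤ 2 * Nat.primeCounting ⌊l ^ a⌋₊ := by
    exact_mod_cast card_small K h2 (l ^ a) Q fun P hP => (hQ P).1 hP
  have hq8 : (Q.card : ℝ) ≤ 8 * (l ^ a / (a * Real.log l)) := by
    have := pi_pow_le hl1 ha
    linarith
  -- the outside
  have hout : ∀ H : Subgroup (ClassGroup (𝓞 K)), H ≠ ⊤ →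
      pr l (J H) * Q.card ≤ ((Q.filter fun x => ClassGroup.mk0 x ∉ H).card : ℝ) := by
    intro H hH
    have e : ({P : nonZeroDivisors (Ideal (𝓞 K)) | (P : Ideal (𝓞 K)).IsPrime ∧
        (Ideal.absNorm (P : Ideal (𝓞 K)) : ℝ) ≤ l ^ a ∧ ClassGroup.mk0 P ∉ H}).ncard =
        (Q.filter fun x => ClassGroup.mk0 x ∉ H).card := by
      rw [← Set.ncard_coe_finset]
      congr 1
      ext P
      simp only [coe_filter, hQ]
      exact ⟨fun h => ⟨⟨h.1, h.2.1⟩, h.2.2⟩, fun h => ⟨h.1.1, h.1.2, h.2⟩⟩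
    rw [← e]
    refine le_trans ?_ (hrob H hH)
    have hidx : (2 : ℝ) ^ J H ≤ (H.index : ℝ) := by
      exact_mod_cast Nat.pow_log_le_self 2 (Subgroup.index_ne_zero_of_finite)
    have hJl : (J H : ℝ) / 2 ≤ Real.log H.index := by
      have h3 := Real.log_le_log (by positivity) hidx
      rw [Real.log_pow] at h3
      have h4 := Real.log_two_gt_d9
      have h5 : (0 : ℝ) ≤ J H := by positivity
      nlinarith
    have h3 : pr l (J H) * Q.card ≤ pr l (J H) * (8 * (l ^ a / (a * Real.log l))) := by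
      apply mul_le_mul_of_nonneg_left hq8
      unfold pr
      have : 0 ≤ min 1 (Real.log l * (J H) / (2 * l)) := le_min zero_le_one (by positivity)
      positivity
    refine h3.trans ?_
    have e2 : pr l (J H) * (8 * (l ^ a / (a * Real.log l))) =
        1 / (1000 * a) * (min 1 (Real.log l * (J H) / (2 * l)) * (l ^ a / Real.log l)) := by
      unfold pr
      have ha0 : a ≠ 0 := by linarith
      field_simp
      ring
    rw [e2]
    apply mul_le_mul_of_nonneg_left _ (by positivity)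
    rw [min_mul_of_nonneg _ _ (by positivity), one_mul]
    apply min_le_min le_rfl
    have hla : l ^ a = l ^ (a - 1) * l := by
      rw [← Real.rpow_add_one (by linarith : l ≠ 0)]
      congr 1
      ring
    have h4 : Real.log l * (J H) / (2 * l) * (l ^ a / Real.log l) = l ^ (a - 1) * ((J H) / 2) := by
      rw [hla]
      field_simp
    rw [h4]
    exact mul_le_mul_of_nonneg_left hJl (by positivity)
  -- class number
  have hcard : Fintype.card (ClassGroup (𝓞 K)) ≤ (Q.card + 1) ^ ⌊l / Real.log l⌋₊ := by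
    refine card_le_of_products Q (fun P => ClassGroup.mk0 P) _ fun g => ?_
    obtain ⟨L, hL1, hL2, hL3⟩ := hprod g
    exact ⟨L, fun x hx => (hQ x).2 (hL1 x hx), Nat.le_floor hL2, hL3⟩
  have hlogh : Real.log ((⊥ : Subgroup (ClassGroup (𝓞 K))).index : ℕ) ≤
      l / Real.log l * Real.log (3 * l ^ a) := by
    rw [Subgroup.index_bot, Nat.card_eq_fintype_card]
    have h3 : (Fintype.card (ClassGroup (𝓞 K)) : ℝ) ≤ ((Q.card : ℝ) + 1) ^ ⌊l / Real.log l⌋₊ := by
      exact_mod_cast hcard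
    have h4 : (0 : ℝ) < Fintype.card (ClassGroup (𝓞 K)) := by exact_mod_cast Fintype.card_pos
    have h5 := Real.log_le_log h4 h3
    rw [Real.log_pow] at h5
    refine h5.trans ?_
    have h6 : (⌊l / Real.log l⌋₊ : ℝ) ≤ l / Real.log l := Nat.floor_le (by positivity)
    have h7 : (Q.card : ℝ) + 1 ≤ 3 * l ^ a := by
      have h8 : (Nat.primeCounting ⌊l ^ a⌋₊ : ℝ) ≤ l ^ a := by
        have h9 : (Nat.primeCounting ⌊l ^ a⌋₊ : ℝ) ≤ (⌊l ^ a⌋₊ : ℝ) := by
          exact_mod_cast primeCounting_le _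
        exact h9.trans (Nat.floor_le (by linarith))
      linarith
    have h8 : 0 ≤ Real.log ((Q.card : ℝ) + 1) := Real.log_nonneg (by linarith)
    have h9 : Real.log ((Q.card : ℝ) + 1) ≤ Real.log (3 * l ^ a) :=
      Real.log_le_log (by linarith) h7
    exact mul_le_mul h6 h9 h8 (by positivity)
  have hpsi := psi_le hl ha (J := J (⊥ : Subgroup (ClassGroup (𝓞 K))))
    (h := (⊥ : Subgroup (ClassGroup (𝓞 K))).index)
    (Nat.pow_log_le_self 2 (Subgroup.index_ne_zero_of_finite)) hlogh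
  set M : ℕ := ⌊1000000 * (a * l)⌋₊ with hM
  have hM1 : (1000000 * (a * l)) - 1 < M := Nat.sub_one_lt_floor _
  have hM2 : (M : ℝ) ≤ 1000000 * (a * l) := Nat.floor_le (by positivity)
  have hMr : (0 : ℝ) < M := by linarith
  have hM0 : 0 < M := by exact_mod_cast hMr
  have ht := tail Q (fun P => ClassGroup.mk0 P) hq (fun j hj => pr_pos hl1 j hj) hout hM0
    (by linarith) m
  unfold P at ht
  rw [div_le_iff₀ (by positivity)] at ht
  refine ht.trans ?_
  apply mul_le_mul_of_nonneg_right _ (by positivity)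
  apply mul_le_mul_of_nonneg_left _ (by norm_num)
  apply Real.rpow_le_rpow_of_exponent_ge (by norm_num) (by norm_num)
  exact div_le_div_of_nonneg_left (by positivity) hMr hM2

end Pool.Agent.Q201.RG
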