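import Mathlib

/-! If the classes of some prime ideals generate the class group, inverting them gives unique
factorisation. -/

set_option autoImplicit false

namespace Pool.Agent.Q201.RG

open Finset NumberField

variable (K : Type) [Field K] [NumberField K]

theorem exists_away {m : ℕ} (f : Fin m → nonZeroDivisors (Ideal (𝓞 K)))
    (hf : ∀ i, (f i : Ideal (𝓞 K)).IsPrime)
    (hgen : Subgroup.closure (Set.range fun i => ClassGroup.mk0 (f i)) = ⊤) :
    ∃ b : 𝓞 K, b ≠ 0 ∧ (∀ P : Ideal (𝓞 K), P.IsPrime → P ≠ ⊥ → (b ∈ P ↔ ∃ i, P = f i)) ∧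
      IsDomain (Localization.Away b) ∧ IsPrincipalIdealRing (Localization.Away b) := by
  classical
  set h := Fintype.card (ClassGroup (𝓞 K)) with hh
  have hpos : h ≠ 0 := Fintype.card_ne_zero
  set I : nonZeroDivisors (Ideal (𝓞 K)) := ∏ i, f i with hI
  have h1 : ClassGroup.mk0 (I ^ h) = 1 := by rw [map_pow, pow_card_eq_one]
  rw [ClassGroup.mk0_eq_one_iff] at h1
  obtain ⟨⟨b, hb⟩⟩ := h1
  have hb' : ((I ^ h : nonZeroDivisors (Ideal (𝓞 K))) : Ideal (𝓞 K)) = Ideal.span {b} := by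
    rw [hb]
  have hne : ∀ P : nonZeroDivisors (Ideal (𝓞 K)), (P : Ideal (𝓞 K)) ≠ ⊥ := fun P =>
    nonZeroDivisors.ne_zero P.2
  have hb0 : b ≠ 0 := by
    rintro rfl
    apply hne (I ^ h)
    rw [hb']
    simp
  have hmem : ∀ P : Ideal (𝓞 K), P.IsPrime → P ≠ ⊥ → (b ∈ P ↔ ∃ i, P = f i) := by
    intro P hP hP0
    rw [← Ideal.span_singleton_le_iff_mem, ← hb']
    have e : ((I ^ h : nonZeroDivisors (Ideal (𝓞 K))) : Ideal (𝓞 K)) = (∏ i, (f i : Ideal (𝓞 K))) ^ h := by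
      rw [SubmonoidClass.coe_pow, hI, SubmonoidClass.coe_finsetProd]
    rw [e, hP.pow_le_iff hpos, hP.prod_le]
    constructor
    · rintro ⟨i, _, hi⟩
      exact ⟨i, (((hf i).isMaximal (hne (f i))).eq_of_le hP.ne_top hi).symm⟩
    · rintro ⟨i, hi⟩
      exact ⟨i, mem_univ i, hi.ge⟩
  have hle : Submonoid.powers b ≤ nonZeroDivisors (𝓞 K) := by
    rw [Submonoid.powers_le]
    exact mem_nonZeroDivisors_of_ne_zero hb0
  haveI hdom : IsDomain (Localization.Away b) :=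
    IsLocalization.isDomain_localization hle
  refine ⟨b, hb0, hmem, hdom, ⟨fun Jd => ?_⟩⟩
  -- the property
  have hQ : ∀ g : ClassGroup (𝓞 K), ∃ A : nonZeroDivisors (Ideal (𝓞 K)), ClassGroup.mk0 A = g ∧
      Ideal.map (algebraMap (𝓞 K) (Localization.Away b)) (A : Ideal (𝓞 K)) = ⊤ := by
    intro g
    have hg : g ∈ Subgroup.closure (Set.range fun i => ClassGroup.mk0 (f i)) := by
      rw [hgen]; exact Subgroup.mem_top g
    induction hg using Subgroup.closure_induction with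
    | mem x hx =>
      obtain ⟨i, rfl⟩ := hx
      refine ⟨f i, rfl, ?_⟩
      rw [Ideal.eq_top_iff_one]
      have h2 : b ∈ (f i : Ideal (𝓞 K)) := (hmem _ (hf i) (hne _)).2 ⟨i, rfl⟩
      have h3 := Ideal.mem_map_of_mem (algebraMap (𝓞 K) (Localization.Away b)) h2
      have h4 : IsUnit (algebraMap (𝓞 K) (Localization.Away b) b) :=
        IsLocalization.Away.algebraMap_isUnit b
      rw [← Ideal.eq_top_iff_one]
      exact Ideal.eq_top_of_isUnit_mem _ h3 h4
    | one => exact ⟨1, map_one _, by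
        rw [Submonoid.coe_one, Ideal.one_eq_top, Ideal.map_top]⟩
    | mul x y _ _ hx hy =>
      obtain ⟨A, hA1, hA2⟩ := hx
      obtain ⟨B, hB1, hB2⟩ := hy
      refine ⟨A * B, by rw [map_mul, hA1, hB1], ?_⟩
      rw [Submonoid.coe_mul, Ideal.map_mul, hA2, hB2, Ideal.top_mul]
    | inv x _ hx =>
      obtain ⟨A, hA1, hA2⟩ := hx
      refine ⟨A ^ (h - 1), ?_, ?_⟩
      · rw [map_pow, hA1, ← mul_left_inj x, ← pow_succ, Nat.sub_add_cancel (by omega),
          pow_card_eq_one, inv_mul_cancel]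
      · rw [SubmonoidClass.coe_pow, Ideal.map_pow, hA2, Ideal.top_pow]
  have h5 : Ideal.map (algebraMap (𝓞 K) (Localization.Away b))
      (Ideal.comap (algebraMap (𝓞 K) (Localization.Away b)) Jd) = Jd :=
    IsLocalization.map_comap (Submonoid.powers b) _ Jd
  set I₁ := Ideal.comap (algebraMap (𝓞 K) (Localization.Away b)) Jd with hI₁
  by_cases h0 : I₁ = ⊥
  · rw [← h5, h0, Ideal.map_bot]
    exact ⟨0, by simp⟩
  · obtain ⟨A, hA1, hA2⟩ := hQ (ClassGroup.mk0 ⟨I₁, mem_nonZeroDivisors_of_ne_zero h0⟩)⁻¹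
    have h6 : ClassGroup.mk0 (⟨I₁, mem_nonZeroDivisors_of_ne_zero h0⟩ * A) = 1 := by
      rw [map_mul, hA1, mul_inv_cancel]
    rw [ClassGroup.mk0_eq_one_iff] at h6
    obtain ⟨⟨x, hx⟩⟩ := h6
    have h7 : I₁ * (A : Ideal (𝓞 K)) = Ideal.span {x} := hx
    have h8 := congrArg (Ideal.map (algebraMap (𝓞 K) (Localization.Away b))) h7
    rw [Ideal.map_mul, hA2, Ideal.mul_top, h5, Ideal.map_span, Set.image_singleton] at h8
    rw [h8]
    exact ⟨⟨_, rfl⟩⟩

end Pool.Agent.Q201.RG
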