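import Pool.Agent.Q299.TPC.ES2

/-! Products of subsets of a random tuple in a finite abelian group. -/

set_option autoImplicit false

namespace Pool.Agent.Q201.RG

open Finset MonoidAlgebra Pool.Agent.Q299.TPC
open scoped Classical

section

variable {G ι : Type} [CommGroup G] [Fintype G]

/-- the number of the subsets with product `x` -/
noncomputable def subs (c : ι → G) {m : ℕ} (f : Fin m → ι) (x : G) : ℕ :=
  ((univ : Finset (Finset (Fin m))).filter fun A => ∏ i ∈ A, c (f i) = x).card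

lemma coeff_prod (c : ι → G) {m : ℕ} (f : Fin m → ι) (x : G) :
    (∏ i, (1 + single (c (f i)) (1 : ℝ))).coeff x = subs c f x := by
  rw [prod_one_add]
  have h1 : ∀ A : Finset (Fin m), ∏ i ∈ A, single (c (f i)) (1 : ℝ) =
      single (∏ i ∈ A, c (f i)) (1 : ℝ) := by
    intro s
    induction s using Finset.induction_on with
    | empty => rw [prod_empty, prod_empty, one_def]
    | insert i s hi ih => rw [prod_insert hi, prod_insert hi, ih, single_mul_single, mul_one]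
  simp only [h1]
  rw [coeff_sum, Finsupp.finsetSum_apply]
  simp only [coeff_single, Finsupp.single_apply]
  rw [← sum_filter, sum_const, nsmul_eq_mul, mul_one, powerset_univ]
  rfl

lemma subs_inv (c : ι → G) {m : ℕ} (f : Fin m → ι) (x : G) :
    subs (fun i => (c i)⁻¹) f x⁻¹ = subs c f x := by
  unfold subs
  congr 1
  ext A
  simp only [mem_filter, mem_univ, true_and, prod_inv_distrib, inv_inj]

lemma sum_subs_sq (c : ι → G) {m : ℕ} (f : Fin m → ι) :
    ∑ x : G, (subs c f x : ℝ) ^ 2 =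
      (∏ i, ((1 + single (c (f i)) (1 : ℝ)) * (1 + single (c (f i))⁻¹ (1 : ℝ)))).coeff 1 := by
  rw [prod_mul_distrib, cm']
  refine sum_congr rfl fun x _ => ?_
  have h1 := coeff_prod c f x
  have h2 := coeff_prod (fun i => (c i)⁻¹) f (x⁻¹ * 1)
  rw [mul_one, subs_inv] at h2
  rw [mul_one, h1, h2, sq]

lemma sum_subs (c : ι → G) {m : ℕ} (f : Fin m → ι) : ∑ x : G, (subs c f x : ℝ) = 2 ^ m := by
  have h1 : ∑ x : G, (subs c f x : ℝ) = tot (∏ i, (1 + single (c (f i)) (1 : ℝ))) := by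
    unfold tot
    exact sum_congr rfl fun x _ => (coeff_prod c f x).symm
  rw [h1]
  have h2 : ∀ s : Finset (Fin m), tot (∏ i ∈ s, (1 + single (c (f i)) (1 : ℝ))) = 2 ^ s.card := by
    intro s
    induction s using Finset.induction_on with
    | empty => rw [prod_empty, tot_one, card_empty, pow_zero]
    | insert i s hi ih =>
      rw [prod_insert hi, tot_mul, ih, tot_add, tot_one, tot_single, card_insert_of_notMem hi,
        pow_succ]
      ring
  rw [h2, card_univ, Fintype.card_fin]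

/-- the lazy symmetric walk -/
noncomputable def kap (Q : Finset ι) (c : ι → G) : MonoidAlgebra ℝ G :=
  ∑ i ∈ Q, (1 + single (c i) (1 : ℝ)) * (1 + single (c i)⁻¹ (1 : ℝ))

lemma sum_sq (Q : Finset ι) (c : ι → G) (m : ℕ) :
    ∑ f ∈ Fintype.piFinset (fun _ : Fin m => Q), ∑ x : G, (subs c f x : ℝ) ^ 2 =
      (kap Q c ^ m).coeff 1 := by
  have h1 : kap Q c ^ m = ∑ f ∈ Fintype.piFinset (fun _ : Fin m => Q),
      ∏ i, ((1 + single (c (f i)) (1 : ℝ)) * (1 + single (c (f i))⁻¹ (1 : ℝ))) := by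
    unfold kap
    rw [← Fin.prod_const, Finset.prod_univ_sum]
  rw [h1, coeff_sum, Finsupp.finsetSum_apply]
  exact sum_congr rfl fun f _ => sum_subs_sq c f

/-- the variance -/
theorem sum_dev (Q : Finset ι) (c : ι → G) (m : ℕ) :
    ∑ f ∈ Fintype.piFinset (fun _ : Fin m => Q),
      ∑ x : G, ((subs c f x : ℝ) - 2 ^ m / Fintype.card G) ^ 2 ≤
      l1 (kap Q c ^ m - ((4 * Q.card : ℝ) ^ m) • uu G) := by
  have hpos := card_pos' (G := G)
  have h1 : ∀ f : Fin m → ι, ∑ x : G, ((subs c f x : ℝ) - 2 ^ m / Fintype.card G) ^ 2 =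
      ∑ x : G, (subs c f x : ℝ) ^ 2 - 4 ^ m / Fintype.card G := by
    intro f
    have h2 : ∀ x : G, ((subs c f x : ℝ) - 2 ^ m / Fintype.card G) ^ 2 =
        (subs c f x : ℝ) ^ 2 - 2 * (2 ^ m / Fintype.card G) * subs c f x +
          (2 ^ m / Fintype.card G) ^ 2 := fun x => by ring
    simp only [h2]
    rw [sum_add_distrib, sum_sub_distrib, ← mul_sum, sum_subs, sum_const, card_univ, nsmul_eq_mul]
    have h4 : (4 : ℝ) ^ m = 2 ^ m * 2 ^ m := by rw [← mul_pow]; norm_num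
    rw [h4]
    field_simp
    ring
  simp only [h1]
  rw [sum_sub_distrib, sum_sq, sum_const, Fintype.card_piFinset]
  simp only [prod_const, card_univ, Fintype.card_fin, nsmul_eq_mul]
  have h3 : (kap Q c ^ m).coeff 1 - ((Q.card ^ m : ℕ) : ℝ) * (4 ^ m / Fintype.card G) =
      (kap Q c ^ m - ((4 * Q.card : ℝ) ^ m) • uu G).coeff 1 := by
    rw [coeff_sub, Finsupp.sub_apply, coeff_smul, Finsupp.smul_apply, uu_coeff, smul_eq_mul]
    push_cast
    rw [mul_pow]
    ring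
  rw [h3]
  refine (le_abs_self _).trans ?_
  unfold l1
  exact single_le_sum (f := fun x => |(kap Q c ^ m - ((4 * Q.card : ℝ) ^ m) • uu G).coeff x|)
    (fun x _ => abs_nonneg _) (mem_univ 1)

/-- **Chebyshev.** -/
theorem few_bad (Q : Finset ι) (c : ι → G) (m : ℕ) {ε η : ℝ} (hε : 0 < ε)
    (h : l1 (kap Q c ^ m - ((4 * Q.card : ℝ) ^ m) • uu G) ≤ η * (4 * Q.card : ℝ) ^ m)
    (hη : η * (Fintype.card G : ℝ) ^ 2 ≤ ε ^ 3) :
    (((Fintype.piFinset fun _ : Fin m => Q).filter fun f =>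
      ¬ ∀ x : G, |(subs c f x : ℝ) - 2 ^ m / Fintype.card G| ≤ ε * (2 ^ m / Fintype.card G)).card : ℝ)
      ≤ ε * (Q.card : ℝ) ^ m := by
  have hpos := card_pos' (G := G)
  set T := (Fintype.piFinset fun _ : Fin m => Q).filter fun f =>
      ¬ ∀ x : G, |(subs c f x : ℝ) - 2 ^ m / Fintype.card G| ≤ ε * (2 ^ m / Fintype.card G) with hT
  set t : ℝ := (ε * (2 ^ m / Fintype.card G)) ^ 2 with ht
  have ht0 : 0 < t := by positivity
  have h1 : (T.card : ℝ) * t ≤ ∑ f ∈ Fintype.piFinset (fun _ : Fin m => Q),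
      ∑ x : G, ((subs c f x : ℝ) - 2 ^ m / Fintype.card G) ^ 2 := by
    calc (T.card : ℝ) * t = ∑ _f ∈ T, t := by rw [sum_const, nsmul_eq_mul]
      _ ≤ ∑ f ∈ T, ∑ x : G, ((subs c f x : ℝ) - 2 ^ m / Fintype.card G) ^ 2 := by
          refine sum_le_sum fun f hf => ?_
          have h2 := (mem_filter.1 hf).2
          push Not at h2
          obtain ⟨x, hx⟩ := h2
          refine le_trans ?_ (single_le_sum
            (f := fun x => ((subs c f x : ℝ) - 2 ^ m / Fintype.card G) ^ 2)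
            (fun x _ => sq_nonneg _) (mem_univ x))
          rw [ht, ← sq_abs ((subs c f x : ℝ) - 2 ^ m / Fintype.card G)]
          exact pow_le_pow_left₀ (by positivity) hx.le 2
      _ ≤ _ := sum_le_sum_of_subset_of_nonneg (filter_subset _ _) fun f _ _ =>
          sum_nonneg fun x _ => sq_nonneg _
  have h2 := h1.trans ((sum_dev Q c m).trans h)
  have h3 : η * (4 * Q.card : ℝ) ^ m ≤ (ε * (Q.card : ℝ) ^ m) * t := by
    have e : (4 * Q.card : ℝ) ^ m = 2 ^ m * 2 ^ m * (Q.card : ℝ) ^ m := by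
      rw [← mul_pow, ← mul_pow]; norm_num
    rw [e, ht]
    have e2 : (ε * (Q.card : ℝ) ^ m) * (ε * (2 ^ m / Fintype.card G)) ^ 2 =
        ε ^ 3 / (Fintype.card G : ℝ) ^ 2 * (2 ^ m * 2 ^ m * (Q.card : ℝ) ^ m) := by
      field_simp
    rw [e2]
    apply mul_le_mul_of_nonneg_right _ (by positivity)
    rw [le_div_iff₀ (by positivity)]
    exact hη
  exact le_of_mul_le_mul_right (h2.trans h3) ht0

/-! ### mixing of the lazy walk -/

lemma pow_sub_uu {x : MonoidAlgebra ℝ G} (hx : tot x = 1) (j : ℕ) :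
    (x - uu G) ^ (j + 1) = x ^ (j + 1) - uu G := by
  induction j with
  | zero => simp
  | succ j ih =>
    rw [pow_succ, ih, sub_mul, mul_sub, mul_sub, mul_uu, mul_comm (uu G) x, mul_uu, mul_uu, tot_pow,
      hx, tot_uu, one_pow, one_smul, ← pow_succ]
    abel

lemma l1_pow_of {x : MonoidAlgebra ℝ G} (hx : tot x = 1) (hx0 : ∀ g, 0 ≤ x.coeff g) {δ : ℝ}
    {M : ℕ} (h : l1 (x ^ M - uu G) ≤ δ) {j : ℕ} (hj : 1 ≤ j) {m : ℕ} (hm : M * j ≤ m) :
    l1 (x ^ m - uu G) ≤ δ ^ j := by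
  obtain ⟨i, rfl⟩ : ∃ i, j = i + 1 := ⟨j - 1, by omega⟩
  obtain ⟨k, rfl⟩ : ∃ k, m = M * (i + 1) + k := ⟨m - M * (i + 1), by omega⟩
  have h1 : x ^ (M * (i + 1) + k) - uu G = (x ^ M - uu G) ^ (i + 1) * x ^ k := by
    rw [pow_sub_uu (by rw [tot_pow, hx, one_pow]), sub_mul, ← pow_mul, ← pow_add,
      mul_comm (uu G) (x ^ k), mul_uu, tot_pow, hx, one_pow, one_smul]
  rw [h1]
  calc l1 ((x ^ M - uu G) ^ (i + 1) * x ^ k) ≤ l1 ((x ^ M - uu G) ^ (i + 1)) * l1 (x ^ k) :=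
        l1_mul _ _
    _ = l1 ((x ^ M - uu G) ^ (i + 1)) := by
        rw [l1_of_nonneg (pow_coeff_nonneg hx0 k), tot_pow, hx, one_pow, mul_one]
    _ ≤ (l1 (x ^ M - uu G)) ^ (i + 1) := l1_pow_le _ _
    _ ≤ δ ^ (i + 1) := pow_le_pow_left₀ (l1_nonneg _) h _

theorem kap_mix (Q : Finset ι) (c : ι → G) (hQ : 0 < Q.card) {n : ℕ} (hn : 5 ≤ n)
    (h : l1 ((∑ i ∈ Q, single (c i) (1 : ℝ)) ^ n - ((Q.card : ℝ) ^ n) • uu G) ≤
      1 / 8 * (Q.card : ℝ) ^ n) {j m : ℕ} (hj : 1 ≤ j) (hm : 10 * n * j ≤ m) :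
    l1 (kap Q c ^ m - ((4 * Q.card : ℝ) ^ m) • uu G) ≤ (1 / 4) ^ j * (4 * Q.card : ℝ) ^ m := by
  have hq : (0 : ℝ) < Q.card := by exact_mod_cast hQ
  set S := ∑ i ∈ Q, single (c i) (1 : ℝ) with hS
  set R := ∑ i ∈ Q, single (c i)⁻¹ (1 : ℝ) with hR
  have htot : ∀ (c' : ι → G) (U : Finset ι), tot (∑ i ∈ U, single (c' i) (1 : ℝ)) = U.card := by
    intro c' U
    induction U using Finset.induction_on with
    | empty => unfold tot; simp
    | insert P s hP ih =>
      rw [sum_insert hP, tot_add, ih, tot_single, card_insert_of_notMem hP]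
      push_cast
      ring
  have hnn : ∀ (c' : ι → G) (U : Finset ι) (x : G),
      0 ≤ (∑ i ∈ U, single (c' i) (1 : ℝ)).coeff x := by
    intro c' U x
    rw [coeff_sum, Finsupp.finsetSum_apply]
    refine sum_nonneg fun P _ => ?_
    rw [coeff_single, Finsupp.single_apply]
    split_ifs <;> norm_num
  have hkap : kap Q c = S + ((2 * Q.card : ℝ) • (1 : MonoidAlgebra ℝ G) + R) := by
    unfold kap
    have h1 : ∀ i, (1 + single (c i) (1 : ℝ)) * (1 + single (c i)⁻¹ (1 : ℝ)) =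
        single (c i) (1 : ℝ) + ((2 : ℝ) • (1 : MonoidAlgebra ℝ G) + single (c i)⁻¹ (1 : ℝ)) := by
      intro i
      rw [add_mul, one_mul, mul_add, mul_one, single_mul_single, mul_inv_cancel, mul_one,
        ← one_def, two_smul]
      abel
    simp only [h1]
    rw [sum_add_distrib, sum_add_distrib, sum_const, ← Nat.cast_smul_eq_nsmul ℝ, smul_smul,
      mul_comm (Q.card : ℝ) 2]
  have hb0 : ∀ x, 0 ≤ ((2 * Q.card : ℝ) • (1 : MonoidAlgebra ℝ G) + R).coeff x := by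
    intro x
    rw [coeff_add, Finsupp.add_apply, coeff_smul, Finsupp.smul_apply, smul_eq_mul]
    have h1 := one_coeff_nonneg (G := G) x
    have h2 := hnn (fun i => (c i)⁻¹) Q x
    have h3 : 0 ≤ 2 * (Q.card : ℝ) * (1 : MonoidAlgebra ℝ G).coeff x := by positivity
    exact add_nonneg h3 h2
  have hbt : tot ((2 * Q.card : ℝ) • (1 : MonoidAlgebra ℝ G) + R) = 3 * Q.card := by
    rw [tot_add, tot_smul, tot_one, htot (fun i => (c i)⁻¹) Q]
    ring
  have hSt : tot S = Q.card := htot c Q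
  have h1 := l1_add_pow S ((2 * Q.card : ℝ) • (1 : MonoidAlgebra ℝ G) + R) (hnn c Q) hb0 n (10 * n)
    (1 / 8) (by norm_num) (by rw [hSt]; exact h)
  rw [← hkap, hSt, hbt] at h1
  have e1 : (Q.card : ℝ) + 3 * Q.card = 4 * Q.card := by ring
  have e2 : (Q.card : ℝ) / 2 + 3 * Q.card = 4 * Q.card * (7 / 8) := by ring
  rw [e1, e2, mul_pow (4 * (Q.card : ℝ)) (7 / 8)] at h1
  have h2 : (2 : ℝ) ^ n * (7 / 8) ^ (10 * n) ≤ 1 / 16 := by
    rw [pow_mul, ← mul_pow]
    have h3 : (2 * (7 / 8 : ℝ) ^ 10) ≤ 0.5262 := by norm_num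
    calc (2 * (7 / 8 : ℝ) ^ 10) ^ n ≤ (0.5262 : ℝ) ^ n := pow_le_pow_left₀ (by positivity) h3 n
      _ ≤ (0.5262 : ℝ) ^ 5 := pow_le_pow_of_le_one (by norm_num) (by norm_num) hn
      _ ≤ 1 / 16 := by norm_num
  have h3 : l1 (kap Q c ^ (10 * n) - ((4 * Q.card : ℝ) ^ (10 * n)) • uu G) ≤
      1 / 4 * (4 * Q.card : ℝ) ^ (10 * n) := by
    refine h1.trans ?_
    have h4 : 0 < (4 * (Q.card : ℝ)) ^ (10 * n) := by positivity
    nlinarith
  set q4 : ℝ := 4 * Q.card with hq4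
  have hq4p : 0 < q4 := by positivity
  set x : MonoidAlgebra ℝ G := (1 / q4) • kap Q c with hx
  have hkt : tot (kap Q c) = q4 := by rw [hkap, tot_add, hSt, hbt, hq4]; ring
  have hxt : tot x = 1 := by rw [hx, tot_smul, hkt]; field_simp
  have hk0 : ∀ g, 0 ≤ (kap Q c).coeff g := by
    intro g
    rw [hkap, coeff_add, Finsupp.add_apply]
    exact add_nonneg (hnn c Q g) (hb0 g)
  have hx0 : ∀ g, 0 ≤ x.coeff g := by
    intro g
    rw [hx, coeff_smul, Finsupp.smul_apply, smul_eq_mul]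
    exact mul_nonneg (by positivity) (hk0 g)
  have hscale : ∀ N : ℕ, l1 (kap Q c ^ N - (q4 ^ N) • uu G) = q4 ^ N * l1 (x ^ N - uu G) := by
    intro N
    have e : kap Q c ^ N - (q4 ^ N) • uu G = (q4 ^ N) • (x ^ N - uu G) := by
      rw [hx, smul_pow, smul_sub, smul_smul, ← mul_pow]
      have : q4 * (1 / q4) = 1 := by field_simp
      rw [this, one_pow, one_smul]
    rw [e, l1_smul, abs_of_nonneg (by positivity)]
  rw [hscale] at h3 ⊢
  have h4 : l1 (x ^ (10 * n) - uu G) ≤ 1 / 4 := by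
    have h5 : 0 < q4 ^ (10 * n) := by positivity
    rw [mul_comm (1 / 4 : ℝ)] at h3
    exact le_of_mul_le_mul_left h3 h5
  have h5 := l1_pow_of hxt hx0 h4 hj hm
  rw [mul_comm]
  exact mul_le_mul_of_nonneg_right h5 (by positivity)

end

end Pool.Agent.Q201.RG
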