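import Pool.Agent.Q201.RG.Sub
import Pool.Agent.Q201.RG.Gen

/-! Products of subsets of a random tuple of tiny prime ideals. -/

set_option autoImplicit false

namespace Pool.Agent.Q201.RG

open Finset NumberField MonoidAlgebra Pool.Agent.Q299.TPC
open scoped Classical

theorem log_h_le {l a : ℝ} (hl : 1.098 ≤ l) (ha : 2 < a) {x : ℝ}
    (hh : x ≤ l / Real.log l * Real.log (3 * l ^ a)) : x ≤ 7.3 * (a * l) := by
  have hl1 : 1 < l := by linarith
  have hlog : 0 < Real.log l := Real.log_pos hl1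
  have hll : 0.089 ≤ Real.log l := by
    have h1 := Real.one_sub_inv_le_log_of_pos (show 0 < l by linarith)
    have h2 : l⁻¹ ≤ (1.098)⁻¹ := inv_anti₀ (by norm_num) hl
    have h3 : (1.098 : ℝ)⁻¹ ≤ 0.911 := by norm_num
    linarith
  have hli : 1 / Real.log l ≤ 11.3 := by
    rw [div_le_iff₀ hlog]
    nlinarith
  have hB0 : 0 < l ^ a := by positivity
  have h3 : Real.log (3 * l ^ a) ≤ 1.0987 + a * Real.log l := by
    rw [Real.log_mul (by norm_num) hB0.ne', Real.log_rpow (by linarith)]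
    have : Real.log 3 ≤ 1.0987 := by
      have := Real.log_three_lt_d9
      linarith
    linarith
  refine hh.trans ?_
  have h5 : l / Real.log l * Real.log (3 * l ^ a) ≤
      l / Real.log l * (1.0987 + a * Real.log l) :=
    mul_le_mul_of_nonneg_left h3 (by positivity)
  refine h5.trans ?_
  have h6 : l / Real.log l * (1.0987 + a * Real.log l) = l * (1.0987 * (1 / Real.log l) + a) := by
    field_simp
  rw [h6]
  have h7 : 1.0987 * (1 / Real.log l) + a ≤ 7.3 * a := by nlinarith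
  have := mul_le_mul_of_nonneg_left h7 (show 0 ≤ l by linarith)
  linarith

theorem card_bound (K : Type) [Field K] [NumberField K] (h2 : Module.finrank ℚ K = 2) {a l : ℝ}
    (ha : 2 < a) (hl : 1.098 ≤ l)
    (hprod : ∀ C : ClassGroup (𝓞 K), ∃ L : Multiset (nonZeroDivisors (Ideal (𝓞 K))),
      (∀ P ∈ L, (P : Ideal (𝓞 K)).IsPrime ∧
        (Ideal.absNorm (P : Ideal (𝓞 K)) : ℝ) ≤ l ^ a) ∧
      (L.card : ℝ) ≤ l / Real.log l ∧ (L.map (fun P => ClassGroup.mk0 P)).prod = C)
    (Q : Finset (nonZeroDivisors (Ideal (𝓞 K))))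
    (hQ : ∀ P, P ∈ Q ↔ (P : Ideal (𝓞 K)).IsPrime ∧
      (Ideal.absNorm (P : Ideal (𝓞 K)) : ℝ) ≤ l ^ a) :
    Real.log (Fintype.card (ClassGroup (𝓞 K))) ≤ 7.3 * (a * l) := by
  have hl1 : 1 < l := by linarith
  have hlog : 0 < Real.log l := Real.log_pos hl1
  have hB : 1 < l ^ a := Real.one_lt_rpow hl1 (by linarith)
  have hQle : (Q.card : ℝ) ≤ 2 * Nat.primeCounting ⌊l ^ a⌋₊ := by
    exact_mod_cast card_small K h2 (l ^ a) Q fun P hP => (hQ P).1 hP
  have hcard : Fintype.card (ClassGroup (𝓞 K)) ≤ (Q.card + 1) ^ ⌊l / Real.log l⌋₊ := by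
    refine card_le_of_products Q (fun P => ClassGroup.mk0 P) _ fun g => ?_
    obtain ⟨L, hL1, hL2, hL3⟩ := hprod g
    exact ⟨L, fun x hx => (hQ x).2 (hL1 x hx), Nat.le_floor hL2, hL3⟩
  refine log_h_le hl ha ?_
  have h3 : (Fintype.card (ClassGroup (𝓞 K)) : ℝ) ≤ ((Q.card : ℝ) + 1) ^ ⌊l / Real.log l⌋₊ := by
    exact_mod_cast hcard
  have h4 : (0 : ℝ) < Fintype.card (ClassGroup (𝓞 K)) := by exact_mod_cast Fintype.card_pos
  have h5 := Real.log_le_log h4 h3
  rw [Real.log_pow] at h5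
  refine h5.trans ?_
  have h6 : (⌊l / Real.log l⌋₊ : ℝ) ≤ l / Real.log l := Nat.floor_le (by positivity)
  have h7 : (Q.card : ℝ) + 1 ≤ 3 * l ^ a := by
    have h8 : (Nat.primeCounting ⌊l ^ a⌋₊ : ℝ) ≤ l ^ a := by
      have h9 : (Nat.primeCounting ⌊l ^ a⌋₊ : ℝ) ≤ (⌊l ^ a⌋₊ : ℝ) := by
        exact_mod_cast primeCounting_le _
      exact h9.trans (Nat.floor_le (by linarith))
    linarith
  have h8 : 0 ≤ Real.log ((Q.card : ℝ) + 1) := Real.log_nonneg (by linarith)
  have h9 : Real.log ((Q.card : ℝ) + 1) ≤ Real.log (3 * l ^ a) :=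
    Real.log_le_log (by linarith) h7
  exact mul_le_mul h6 h9 h8 (by positivity)

/-- **Few bad tuples.** -/
theorem field_subs {G ι : Type} [CommGroup G] [Fintype G] (Q : Finset ι) (c : ι → G) {a l ε : ℝ}
    (ha : 2 < a) (hl : 1.098 ≤ l) (hε : 0 < ε) (hε1 : ε ≤ 1)
    (hcard : Real.log (Fintype.card G) ≤ 7.3 * (a * l)) (hQ : 0 < Q.card)
    (hwalk : ∀ m : ℕ, 200 * (l / Real.log l) ≤ m →
      l1 ((∑ P ∈ Q, single (c P) (1 : ℝ)) ^ m - ((Q.card : ℝ) ^ m) • uu G) ≤
        1 / 8 * (Q.card : ℝ) ^ m)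
    (m : ℕ) (hm : 25000 * a * (l / Real.log l) * (l + Real.log (1 / ε)) ≤ m) :
    (((Fintype.piFinset fun _ : Fin m => Q).filter fun f =>
      ¬ ∀ x : G, |(subs c f x : ℝ) - 2 ^ m / Fintype.card G| ≤ ε * (2 ^ m / Fintype.card G)).card : ℝ)
      ≤ ε * (Q.card : ℝ) ^ m := by
  have hl1 : 1 < l := by linarith
  have hlog : 0 < Real.log l := Real.log_pos hl1
  set r := l / Real.log l with hr
  have hr1 : 1 ≤ r := by
    rw [hr, le_div_iff₀ hlog]
    have := Real.log_le_sub_one_of_pos (show 0 < l by linarith)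
    linarith
  set L := Real.log (1 / ε) with hL
  have hL0 : 0 ≤ L := Real.log_nonneg (by rw [le_div_iff₀ hε]; linarith)
  set n := ⌈200 * r⌉₊ with hn
  have hn1 : 200 * r ≤ n := Nat.le_ceil _
  have hn2 : (n : ℝ) < 200 * r + 1 := Nat.ceil_lt_add_one (by positivity)
  have hn5 : 5 ≤ n := by
    have : (5 : ℝ) ≤ n := by linarith
    exact_mod_cast this
  have hG0 : (0 : ℝ) < Fintype.card G := card_pos'
  have hlogh0 : 0 ≤ Real.log (Fintype.card G) := Real.log_nonneg (by
    exact_mod_cast Fintype.card_pos (α := G))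
  set j := ⌈(2 * Real.log (Fintype.card G) + 3 * L) / 1.386⌉₊ + 1 with hj
  have hj1 : (2 * Real.log (Fintype.card G) + 3 * L) / 1.386 ≤ j := by
    rw [hj]; push_cast
    have := Nat.le_ceil ((2 * Real.log (Fintype.card G) + 3 * L) / 1.386)
    linarith
  have hj2 : (j : ℝ) ≤ (2 * Real.log (Fintype.card G) + 3 * L) / 1.386 + 2 := by
    rw [hj]; push_cast
    have := (Nat.ceil_lt_add_one (show 0 ≤ (2 * Real.log (Fintype.card G) + 3 * L) / 1.386 by
      positivity)).le
    linarith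
  have hal : 2.196 < a * l := by nlinarith
  have hj3 : (j : ℝ) ≤ 11.5 * (a * (l + L)) := by
    refine hj2.trans ?_
    have h1 : (2 * Real.log (Fintype.card G) + 3 * L) / 1.386 ≤ 10.54 * (a * l) + 2.17 * L := by
      rw [div_le_iff₀ (by norm_num)]
      nlinarith
    nlinarith
  have hm2 : 10 * n * j ≤ m := by
    have h1 : (10 * n * j : ℝ) ≤ m := by
      refine le_trans ?_ hm
      have h2 : (n : ℝ) ≤ 201 * r := by linarith
      have h3 : (0 : ℝ) ≤ j := by positivity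
      have h4 : (n : ℝ) * j ≤ (201 * r) * (11.5 * (a * (l + L))) :=
        mul_le_mul h2 hj3 h3 (by positivity)
      have h5 : 0 ≤ r * (a * (l + L)) := by positivity
      nlinarith
    exact_mod_cast h1
  have hmix := kap_mix Q c hQ hn5 (hwalk n hn1) (j := j) (m := m) (by rw [hj]; omega) hm2
  refine few_bad Q c m hε hmix ?_
  -- `(1/4)^j h^2 ≤ ε^3`
  have h1 : (2 * Real.log (Fintype.card G) + 3 * L) ≤ j * Real.log 4 := by
    have h2 : (1.386 : ℝ) ≤ Real.log 4 := by
      rw [show (4 : ℝ) = 2 ^ 2 by norm_num, Real.log_pow]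
      have := Real.log_two_gt_d9
      push_cast
      linarith
    rw [div_le_iff₀ (by norm_num)] at hj1
    have h3 : (0 : ℝ) ≤ j := by positivity
    nlinarith
  have h2 : Real.log ((1 / 4) ^ j * (Fintype.card G : ℝ) ^ 2) ≤ Real.log (ε ^ 3) := by
    rw [Real.log_mul (by positivity) (by positivity), Real.log_pow, Real.log_pow, Real.log_pow,
      one_div, Real.log_inv]
    have h3 : L = -Real.log ε := by rw [hL, one_div, Real.log_inv]
    rw [h3] at h1
    push_cast
    linarith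
  exact (Real.log_le_log_iff (by positivity) (by positivity)).1 h2

end Pool.Agent.Q201.RG
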